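import Pool.Agent.Results.MP_b696eb_nt.IntermediateFields

/-!
# Rationality of the central L-value of an elliptic curve over all intermediate fields

Let `E` be an elliptic curve over a number field `K` and `F/K` a finite Galois extension with group `G`. The
question is whether `L(1, E/L) / Ω(E/L)` is rational for the curve `E` over the intermediate fields `L = F^U`.
`T` is a family of functions with the formal properties of the L-functions `L(E ⊗ χ, s)`, `χ` an irreducible
complex character of `G`; the number field `k` contains the roots of unity of order the exponent of `G`, and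
`P τ χ` is the component at the embedding `τ` of `k` of the Deligne period of the twist of `E` which belongs to
`χ` at `τ`. For the permutation representation on `G / U` the product of these periods is `Ω(E/F^U)` up to an
element of `k` (`Compatible`).

Hypothesis: the equivariant form of the question (`Pool.Agent.R389.Deligne`) for the twists of `E` by the
linear characters over those intermediate fields `F^U` over which `F` is SOLVABLE. Nothing is assumed about the
other intermediate fields, not even that the L-functions of `E` over them are holomorphic at `s = 1`. If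
`L(E/F, 1) = 0`, then Brauer's theorem gives only quotients `0 / 0`.

* If `L(E/F, s)` has a zero of order at most two at `s = 1`, then `L(1, E/L) / Ω(E/L)` is rational for ALL
  intermediate fields `L`, for every group `G`.
* For zeros of larger order `r` the same is true for all `L = F^U` such that `U N / N` is solvable, for a normal
  subgroup `N` built from direct products of groups `A_m`, `SL_2(2^k)` in the range of `r` and from abelian
  groups with more than `r` conjugates of each nontrivial character; for all `L` if for instance `G = A_n` or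
  `S_n`, `n ≥ r + 3`.

The representation theory is that of `Pool.Agent.Results.MP_b696eb_nt.IntermediateFields`.
-/

set_option autoImplicit false
open NumberField Filter Topology

namespace Pool.Agent.Results.MP_90f827_nt.IntermediateFields

open IsDedekindDomain MeasureTheory
open Pool.Agent.H541R3.ART (Irr)
open Pool.Agent.R389 (ind IsDecomp)

/-- `M v` is, for every `v`, an integral model of `E` with discriminant minimal at `v`. -/
def MinimalModels {K : Type} [Field K] [NumberField K] (E : WeierstrassCurve K)
    (M : HeightOneSpectrum (𝓞 K) → WeierstrassCurve (𝓞 K)) : Prop :=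
  ∀ v : HeightOneSpectrum (𝓞 K),
    (∃ C : WeierstrassCurve.VariableChange K, C • E = (M v).map (algebraMap (𝓞 K) K)) ∧
    ∀ W : WeierstrassCurve (𝓞 K),
      (∃ C : WeierstrassCurve.VariableChange K, C • E = W.map (algebraMap (𝓞 K) K)) →
        ∀ n : ℕ, (M v).Δ ∈ v.asIdeal ^ n → W.Δ ∈ v.asIdeal ^ n

open Classical in
/-- The Euler product of the Hasse–Weil L-function, computed from the reductions of the models `M v`. -/
noncomputable def LSeries {K : Type} [Field K] [NumberField K]
    (M : HeightOneSpectrum (𝓞 K) → WeierstrassCurve (𝓞 K)) (s : ℂ) : ℂ :=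
  ∏' v : HeightOneSpectrum (𝓞 K),
    (1 - ((((Ideal.absNorm v.asIdeal : ℕ) : ℤ) -
          ((Nat.card {p : (𝓞 K ⧸ v.asIdeal) × (𝓞 K ⧸ v.asIdeal) //
            p.2 ^ 2 + Ideal.Quotient.mk v.asIdeal (M v).a₁ * p.1 * p.2
              + Ideal.Quotient.mk v.asIdeal (M v).a₃ * p.2
            = p.1 ^ 3 + Ideal.Quotient.mk v.asIdeal (M v).a₂ * p.1 ^ 2
              + Ideal.Quotient.mk v.asIdeal (M v).a₄ * p.1
              + Ideal.Quotient.mk v.asIdeal (M v).a₆} : ℕ) : ℤ) : ℤ) : ℂ)
          * ((Ideal.absNorm v.asIdeal : ℕ) : ℂ) ^ (-s)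
      + (if (M v).Δ ∈ v.asIdeal then (0 : ℂ) else 1)
          * ((Ideal.absNorm v.asIdeal : ℕ) : ℂ) ^ (1 - 2 * s))⁻¹

/-- The formal properties of the L-functions `L(E ⊗ χ, s)`, `χ` an irreducible complex character of the
Galois group `G` of `F/K`: they have a meromorphic continuation to the plane and do not vanish identically,
they are analytic for `Re s > 3/2`, and for every subgroup `U` of `G` the product of the
`L(E ⊗ χ, s) ^ ⟨χ|_U, 1⟩` is, for `Re s > 3/2`, the Euler product of `E` over the fixed field of `U`. -/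
structure TwistFamily (K : Type) [Field K] [NumberField K] (E : WeierstrassCurve K)
    (F : Type) [Field F] [NumberField F] [Algebra K F] where
  /-- the function `L(E ⊗ χ, s)` -/
  L : ((F ≃ₐ[K] F) → ℂ) → ℂ → ℂ
  analytic : ∀ χ ∈ Irr (F ≃ₐ[K] F), ∀ s : ℂ, (3 / 2 : ℝ) < s.re → AnalyticAt ℂ (L χ) s
  mero : ∀ χ ∈ Irr (F ≃ₐ[K] F), ∀ s : ℂ, MeromorphicAt (L χ) s ∧ meromorphicOrderAt (L χ) s ≠ ⊤
  euler : ∀ (U : Subgroup (F ≃ₐ[K] F)) (m : ((F ≃ₐ[K] F) → ℂ) → ℕ),
    IsDecomp (ind U (fun _ => 1)) m →
    ∀ M : HeightOneSpectrum (𝓞 (IntermediateField.fixedField U)) →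
        WeierstrassCurve (𝓞 (IntermediateField.fixedField U)),
      MinimalModels (E.map (algebraMap K (IntermediateField.fixedField U))) M →
        ∀ s : ℂ, (3 / 2 : ℝ) < s.re → ∏ᶠ χ ∈ Irr (F ≃ₐ[K] F), L χ s ^ m χ = LSeries M s

/-- The number `P_σ` of the problem at the infinite place `w` of `L`, up to a nonzero rational factor, for the
differential `dx / (2y + a₁ x + a₃)` of the Weierstrass equation: with
`f(x) = 4 x³ + b₂ x² + 2 b₄ x + b₆` the integral of `1 / √f` over the real `x` with `f(x) > 0` at a real
place (the real period or one half of it), the integral of `1 / |f|` over the plane at a complex place (one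
half of the area of the period lattice). -/
noncomputable def localPeriod {L : Type} [Field L] (W : WeierstrassCurve L) (w : InfinitePlace L) : ℝ :=
  open Classical in
  if w.IsReal then
    ∫ x in {x : ℝ | 0 < 4 * x ^ 3 + (w.embedding W.b₂).re * x ^ 2 + 2 * (w.embedding W.b₄).re * x +
      (w.embedding W.b₆).re}, 1 / √(4 * x ^ 3 + (w.embedding W.b₂).re * x ^ 2 +
        2 * (w.embedding W.b₄).re * x + (w.embedding W.b₆).re)
  else
    ∫ z : ℂ, 1 / ‖4 * z ^ 3 + w.embedding W.b₂ * z ^ 2 + 2 * w.embedding W.b₄ * z + w.embedding W.b₆‖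

/-- `Ω(A) = |d_L|^{1/2} ∏ P_σ` for the elliptic curve `A` with the equation `W` over the number field `L`. -/
noncomputable def omega {L : Type} [Field L] [NumberField L] (W : WeierstrassCurve L) : ℝ :=
  √|((discr L : ℤ) : ℝ)| * ∏ w : InfinitePlace L, localPeriod W w

/-- The order at `s = 1` of the L-function of the twist of `E` by the character which contains `χ` with the
multiplicity `m χ`, the product of the `L(E ⊗ χ, s) ^ m χ`. -/
noncomputable def TwistFamily.order {K : Type} [Field K] [NumberField K] {E : WeierstrassCurve K}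
    {F : Type} [Field F] [NumberField F] [Algebra K F] (T : TwistFamily K E F)
    (m : ((F ≃ₐ[K] F) → ℂ) → ℕ) : WithTop ℤ :=
  meromorphicOrderAt (fun z => ∏ᶠ χ ∈ Irr (F ≃ₐ[K] F), T.L χ z ^ m χ) 1

/-- The order at `s = 1` of the L-function of `E` over the fixed field of `C (i + 1)` is smaller by at most `r`
than the one for `C i`, where `⊥ = C 0 ≤ C 1 ≤ … ≤ C t` is a chain of solvable normal subgroups of `G`, and
it is at most `r` for `C t`. For `t = 0`: the order at `s = 1` of the L-function of `E` over `F` is at most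
`r`. -/
def TwistFamily.GrowsBy {K : Type} [Field K] [NumberField K] {E : WeierstrassCurve K}
    {F : Type} [Field F] [NumberField F] [Algebra K F] (T : TwistFamily K E F) (r : ℕ) : Prop :=
  ∃ (t : ℕ) (C : ℕ → Subgroup (F ≃ₐ[K] F)), Monotone C ∧ (∀ i, (C i).Normal) ∧ C 0 = ⊥ ∧
    Group.IsSolvable (C t) ∧
    (∀ i < t, ∀ m m' : ((F ≃ₐ[K] F) → ℂ) → ℕ, IsDecomp (ind (C i) (fun _ => 1)) m →
      IsDecomp (ind (C (i + 1)) (fun _ => 1)) m' → T.order m ≤ T.order m' + (r : WithTop ℤ)) ∧
    (∀ m : ((F ≃ₐ[K] F) → ℂ) → ℕ, IsDecomp (ind (C t) (fun _ => 1)) m →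
      T.order m ≤ (r : WithTop ℤ))

/-- The periods `P` are those of the problem over the intermediate fields: for every subgroup `U` the product
of the `P τ χ ^ ⟨χ|_U, 1⟩` is `τ u` times `Ω(E/F^U)`, for one element `u` of `k` and all embeddings `τ`. -/
def Compatible {K : Type} [Field K] [NumberField K] (E : WeierstrassCurve K)
    {F : Type} [Field F] [NumberField F] [Algebra K F] {k : Type} [Field k]
    (P : (k →+* ℂ) → ((F ≃ₐ[K] F) → ℂ) → ℂ) : Prop :=
  ∀ (U : Subgroup (F ≃ₐ[K] F)) (m : ((F ≃ₐ[K] F) → ℂ) → ℕ), IsDecomp (ind U (fun _ => 1)) m →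
    ∃ u : k, ∀ τ : k →+* ℂ, ∏ᶠ χ ∈ Irr (F ≃ₐ[K] F), P τ χ ^ m χ =
      τ u * (omega (E.map (algebraMap K (IntermediateField.fixedField U))) : ℂ)

/-- **The conclusion over the fixed field `L` of `U`**: the continuation of `L(s, E/L)` (the product of the
`L(E ⊗ χ, s) ^ ⟨χ|_U, 1⟩`) has no pole at `s = 1`, and its value at `s = 1` is a rational multiple of
`Ω(E/L)`. -/
def TwistFamily.RationalValue {K : Type} [Field K] [NumberField K] {E : WeierstrassCurve K}
    {F : Type} [Field F] [NumberField F] [Algebra K F] (T : TwistFamily K E F)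
    (U : Subgroup (F ≃ₐ[K] F)) : Prop :=
  ∀ m : ((F ≃ₐ[K] F) → ℂ) → ℕ, IsDecomp (ind U (fun _ => 1)) m → 0 ≤ T.order m ∧
    ∃ q : ℚ, Tendsto (fun s => ∏ᶠ χ ∈ Irr (F ≃ₐ[K] F), T.L χ s ^ m χ) (𝓝[≠] 1)
      (𝓝 ((q : ℂ) * (omega (E.map (algebraMap K (IntermediateField.fixedField U))) : ℂ)))

end Pool.Agent.Results.MP_90f827_nt.IntermediateFields

open Pool.Agent.H541R3.ART (Irr)
open Pool.Agent.R389 (ind IsDecomp Deligne)
open Pool.Agent.Results.MP_90f827_nt.IntermediateFields
open Pool.Agent.Results.MP_b696eb_nt.IntermediateFields (Built)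

/-- **Rationality of the central value over all intermediate fields.** Let `E` be an elliptic curve over the
number field `K`, `F/K` a finite Galois extension with group `G`, `T` a family of functions with the formal
properties of the L-functions `L(E ⊗ χ, s)`, `k` a number field with a primitive root of unity of order the
exponent of `G`, `P` a family of nonzero periods which gives the numbers `Ω(E/F^U)` of the problem
(`Compatible`), and suppose that the equivariant rationality at `s = 1` holds for the twists by the characters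
induced from the linear characters of the SOLVABLE subgroups of `G` (the twists of `E` by linear characters
over those intermediate fields over which `F` is solvable).

(A) If the order at `s = 1` of `L(E/F, s)`, the product of the `L(E ⊗ χ, s) ^ χ(1)`, is at most two, then for
ALL intermediate fields `L` the function `L(s, E/L)` has no pole at `s = 1` and `L(1, E/L)` is in
`Ω(E/L) ℚ`.

(B) Suppose that the order at `s = 1` grows by at most `r` along a chain of fields as in
`TwistFamily.GrowsBy` (for example: the order at `s = 1` of `L(E/F, s)` is at most `r`), and let the normal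
subgroup `N` be built from products of groups `A_m`, `SL_2(2^k)` in the range of `r` and from abelian groups
with more than `r` conjugates of each nontrivial character. Then the same holds for all `L = F^U` such that
the image of `U` in `G / N` is solvable. -/
theorem Pool.Agent.Results.MP_90f827_nt.IntermediateFields.result
    (K : Type) [Field K] [NumberField K] (E : WeierstrassCurve K) (_hE : E.IsElliptic)
    (F : Type) [Field F] [NumberField F] [Algebra K F] [IsGalois K F] (T : TwistFamily K E F)
    (k : Type) [Field k] [NumberField k] (ζ : k) (hζ : IsPrimitiveRoot ζ (Monoid.exponent (F ≃ₐ[K] F)))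
    (P : (k →+* ℂ) → ((F ≃ₐ[K] F) → ℂ) → ℂ) (hP : ∀ τ, ∀ χ ∈ Irr (F ≃ₐ[K] F), P τ χ ≠ 0)
    (hΩ : Compatible E P)
    (hmon : ∀ (U : Subgroup (F ≃ₐ[K] F)) (ψ : U →* kˣ), Group.IsSolvable U →
      Deligne (fun _ => T.L) P 1 (ind U (fun u => ((ψ u : kˣ) : k))))
    (deg : ((F ≃ₐ[K] F) → ℂ) → ℕ) (hdeg : ∀ χ ∈ Irr (F ≃ₐ[K] F), χ 1 = deg χ) :
    (T.order deg ≤ 2 → ∀ U : Subgroup (F ≃ₐ[K] F), T.RationalValue U) ∧
    (∀ r : ℕ, T.GrowsBy r → ∀ (N : Subgroup (F ≃ₐ[K] F)) [N.Normal], Built r N →
      ∀ U : Subgroup (F ≃ₐ[K] F), Group.IsSolvable (U.map (QuotientGroup.mk' N)) →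
        T.RationalValue U) := by
  have hG : Finite (F ≃ₐ[K] F) := inferInstance
  let D : Pool.Agent.Results.MP_b696eb_nt.IntermediateFields.RationalTwistData (F ≃ₐ[K] F) k :=
    ⟨T.L, P, 1, fun χ hχ => T.mero χ hχ 1, hP⟩
  have h := Pool.Agent.Results.MP_b696eb_nt.IntermediateFields.result (F ≃ₐ[K] F) k D ζ hζ hmon deg
    hdeg
  have key : ∀ (U : Subgroup (F ≃ₐ[K] F)) (m : ((F ≃ₐ[K] F) → ℂ) → ℕ),
      IsDecomp (ind U (fun _ => 1)) m → 0 ≤ D.order m ∧ D.Holds m → 0 ≤ T.order m ∧
      ∃ q : ℚ, Tendsto (fun s => ∏ᶠ χ ∈ Irr (F ≃ₐ[K] F), T.L χ s ^ m χ) (𝓝[≠] 1)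
        (𝓝 ((q : ℂ) * (omega (E.map (algebraMap K (IntermediateField.fixedField U))) : ℂ))) := by
    rintro U m hm ⟨h1, h2⟩
    obtain ⟨u, hu⟩ := hΩ U m hm
    exact ⟨h1, h2 _ u hu⟩
  refine ⟨fun hz U m hm => key U m hm ((h.1 hz).1 U m hm), fun r hr N _ hN U hU m hm =>
    key U m hm ((h.2 r hr N hN).1 U hU m hm)⟩
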