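import Pool.Agent.U81.RC.Top

/-!
# Rationality of the central values of elliptic curves over number fields: infinite abelian extensions of imaginary
# quadratic fields

`K` is an imaginary quadratic field of class number one, `E : y² = x³ + a x + b` is an elliptic curve over `K` (in
general it is not defined over `ℚ`, not a twist of a base change and without complex multiplication), and `f` is the
Bianchi newform of `E`.

For a number field `F ⊇ K` let `Ω(E/F) = |d_F|^(1/2) ∏_w P_w` be the period of the conjecture: `w` runs through the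
places of `F`, all complex, and `P_w = |Im (Ω_{w,1} conj Ω_{w,2})|` is the area of the period parallelogram of `E` at `w`
for the differential `dx/(2y)`.  As `x` is a function of degree two, with `|dx| = 2 |y| |ω|`, this area is
`P_w = ∫_{E(ℂ)} |ω|² = (1/2) ∫_ℂ d²x / |x³ + a_w x + b_w|`, where `a_w`, `b_w ∈ ℂ` are the images of `a`, `b`; this
convergent integral is the definition `area`.  (Another differential or other bases change `Ω(E/F)` by a rational
factor, as explained in the problem.)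

For a prime number `q` which splits in `K` let `K(q, k)` be the subfield of `2`-power degree `gcd(2 ^ k, q - 1)` over `K` of
the field of the `q`-th roots of unity, and for a set `S` of prime numbers and a function `k` let `T(S, k)` be the
composite of the fields `K(q, k(q))`, `q ∈ S`.

Theorem.  `L(E/K, s)` is an entire function.  (1) Let `L(E/K, 1) ≠ 0`, and let all `q ∈ S` be odd, split in `K` and prime
to the bad places of `E`; `k` is any function.  For ALL number fields `K ⊆ F ⊂ T(S, k)`, the function `L(E/F, s)` is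
continued to an entire function, and there is a rational number `r` with
`L(E/F, 1) / Ω(E/F) = r (L(E/K, 1) / Ω(E/K)) ^ [F:K]`.  So: if the assertion of the question is true for `E/K`, it is true
for `E/F`, for all these number fields `F`.

(2) Suppose that, moreover, the central value of `f` is odd (the value `Φ(0)` of the primitive `Φ` of the harmonic
differential of `f` at the cusp `0` is not in `2 w Λ`, where `Λ ≅ ℤ` is the group of the values of `Φ` at the cusps `x/m`, `m`
prime to the level, and `w = #{u ∈ 𝓞 : u⁴ = 1}`), and that `x³ + a x + b` has no root modulo the places above the `q ∈ S`.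
Then `L(E/F, 1) ≠ 0` for ALL number fields `K ⊆ F ⊂ T(S, k)`, and the numerator and the denominator of `r` are odd: the
assertion of the question for `E/K` implies the assertion for `E/F`, with a nonzero value, and the rational numbers satisfy
`ord_2 (L(E/F, 1)/Ω(E/F)) = [F:K] ord_2 (L(E/K, 1)/Ω(E/K))`.

(3) If `E(K)[2] = 0`, then for every `k` the admissible primes `q` as in (2) with `2 ^ k ∣ q - 1` have a positive lower
density among the primes; every nontrivial finite abelian `2`-group is the Galois group over `K` of infinitely many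
number fields `F ⊂ T(S, k)`, if `S` is a set of admissible primes and for all `m` there are infinitely many `q ∈ S` with
`2 ^ k(q) ∣ q - 1`, `k(q) ≥ m`.  Such `S` and `k` exist.

About (2): `ord_2` is what the conjecture of Birch and Swinnerton-Dyer predicts, if the Tamagawa numbers and the groups
`E(F)`, `Ш(E/F)` have the corresponding sizes (see `MP_9ab903_nt.AbelianTwoTowers` for the groups).

The proof.  The `L`-function of `E/F` is the product of the functions `L(f ⊗ χ, s)`, where `χ` runs through the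
characters of `Gal(F/K)`; they are the primitive characters `x ↦ ∏_q ψ_q(N(x))` of `2`-power order.  By the formula of
Birch and Manin for Bianchi forms, `L(f ⊗ χ, 1)` is the product of a constant, the inverse of a Gauss sum, a generator of
`Λ` and a sum `∑_x conj χ(x) j(x)` with integers `j(x)` which only depend on the conductor.  (a) The product of these sums
over all `χ` is rational, by Galois theory of the field of the roots of unity of `2`-power order
(`Pool.Agent.U81.RC.prod_rat`); (b) the product of the Gauss sums is an integer, as the places come in pairs with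
the same norm (`val_rat`); (c) `F` is Galois over `ℚ`, and `|d_F| = m² |d_K|^[F:K]` with an odd integer `m`: the
multiplication by elements of the Galois group, which is not cyclic as it contains the complex conjugation, is an even
permutation, so that `d_F` is a square (`discr_sq`, `discr_even`), and `F/K` is unramified at `2` (`discr_odd`);
(d) `L(E/F, 1) ≠ 0` and the oddness are from the congruences modulo the primes above `2` of the starting library of
helper55 (`Pool.Agent.K4H55.CX.ab_unit`), with the fields and characters of `MP_9ab903_nt.AbelianTwoTowers`.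

(Numerically the central value is odd, for instance, for `K = ℚ(√-7)` and the curve `y² + y = x³ + x² - 9 x - 15` of
conductor `19`, see `MP_60ff09_nt.DihedralTwoPower`.)
-/

set_option autoImplicit false

open NumberField IsDedekindDomain Matrix Filter Topology

namespace Pool.Agent.Results.MP_90f827_nt.RationalityInTowers

/-- `K` is an imaginary quadratic field, `σ` is one of its two embeddings in `ℂ`, and `δ` generates the
different of `K`: an `x ∈ K` is in `𝓞` if and only if `Tr(x y / δ) ∈ ℤ` for all `y ∈ 𝓞`. -/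
structure IsFieldData (K : Type) [Field K] [NumberField K] (σ : K →+* ℂ) (δ : K) : Prop where
  quadratic : Module.finrank ℚ K = 2
  imaginary : ∃ x, (starRingEnd ℂ) (σ x) ≠ σ x
  different : ∀ x : K, (∃ a : 𝓞 K, (a : K) = x) ↔
    ∀ y : 𝓞 K, ∃ m : ℤ, Algebra.trace ℚ K (x * y / δ) = m

/-- `h(y) = ∫_0^∞ exp(-1/v - y v) dv = 2 y^(-1/2) K₁(2 √y)`, with the Bessel function `K₁`. -/
noncomputable def bessel (y : ℝ) : ℝ := ∫ v in Set.Ioi (0 : ℝ), Real.exp (-(1 / v) - y * v)

/-- The additive character `e(z) = exp(2πi (z/δ + conj (z/δ)))` of `ℂ`, trivial on `𝓞`. -/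
noncomputable def addChar (δ z : ℂ) : ℂ :=
  Complex.exp (2 * Real.pi * Complex.I * (z / δ + (starRingEnd ℂ) (z / δ)))

/-- The denominator `|c z + d|² + |c|² t²` of the action of the matrix `(a, b; c, d)` on the hyperbolic
space `{(z, t) : z ∈ ℂ, t > 0}`. -/
noncomputable def den (c d z : ℂ) (t : ℝ) : ℝ := ‖c * z + d‖ ^ 2 + ‖c‖ ^ 2 * t ^ 2

/-- The first coordinate `((a z + b) conj (c z + d) + a conj(c) t²) / (|c z + d|² + |c|² t²)` of the image
of `(z, t)` under the matrix `(a, b; c, d)`. -/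
noncomputable def actZ (a b c d z : ℂ) (t : ℝ) : ℂ :=
  ((a * z + b) * (starRingEnd ℂ) (c * z + d) + a * (starRingEnd ℂ) c * (t : ℂ) ^ 2) /
    (den c d z t : ℂ)

/-- The second coordinate, for a matrix of determinant one; in general it is `|ad - bc|` times this. -/
noncomputable def actT (c d z : ℂ) (t : ℝ) : ℝ := t / den c d z t

section field
variable {K : Type} [Field K] [NumberField K]

/-- The function `Φ(z, t) = ∑_{x ∈ 𝓞} c((x)) t² h(N(x) (2πt/|δ|)²) e(x z)
  = (|δ|/π) ∑_{x ≠ 0} (c((x))/|x|) t K₁(4π|x|t/|δ|) e(x z)` on the hyperbolic space, with the coefficients `c`.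
Up to a constant factor it is the primitive, zero at the cusp `∞`, of the harmonic differential of the
form of weight two with the Fourier coefficients `c`: its derivative by `t` is
`-4 ∑_{x ≠ 0} c((x)) t K₀(4π|x|t/|δ|) e(x z)`. -/
noncomputable def primitive (σ : K →+* ℂ) (δ : K) (c : Ideal (𝓞 K) → ℂ) (z : ℂ) (t : ℝ) : ℂ :=
  ∑' x : 𝓞 K, c (Ideal.span {x}) * ((t ^ 2 * bessel (Ideal.absNorm (Ideal.span {x}) *
    (2 * Real.pi * t / ‖σ δ‖) ^ 2) : ℝ) : ℂ) * addChar (σ δ) (σ x * z)

/-- The group `Λ` generated by the values of the primitive `Φ` at the cusps `x/m`, `m ≠ 0` prime to the level (that is,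
by the limits of `Φ(x/m, t)` for `t → 0`). -/
def Lam (σ : K →+* ℂ) (δ : K) (n : 𝓞 K) (c : Ideal (𝓞 K) → ℂ) : AddSubgroup ℂ :=
  AddSubgroup.closure {z | ∃ x m : 𝓞 K, m ≠ 0 ∧ IsCoprime m n ∧
    Tendsto (fun t => primitive σ δ c (σ x / σ m) t) (𝓝[>] 0) (𝓝 z)}

/-- The numbers `c(I)` are the Hecke eigenvalues of a Bianchi newform `f` of weight two, level `(n)` and
trivial character over `K`, with rational eigenvalues: they satisfy `c(𝓞) = 1`, the (trivial) bound `c(I) = O(N(I))`
and the Hecke relations `c(v I) = c(v) c(I)` for `v ∤ I`, `c(v² I) = c(v) c(v I) - N(v) c(I)` for the primes `v ∤ n`, and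
`c(v I) = c(v) c(I)` for `v ∣ n`; the differential `dΦ` of the function `Φ` with the coefficients `c` is
invariant under `Γ₀(n)`, that is, `Φ(γ P) - Φ(P)` is a constant for every `γ ∈ Γ₀(n)`; `dΦ` is an
eigenform, with the eigenvalue `±1`, of the Fricke involution `W = (0, -1; n, 0)`; and the group `Λ` of the values of `Φ` at
cusps is cyclic (this is so for rational eigenvalues, by multiplicity one and the theorem of Manin, Drinfeld and
Kurčanov: the quotient of `H₁(Γ₀(n), cusps; ℤ)` which belongs to `f` has rank one). -/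
structure IsNewform (σ : K →+* ℂ) (δ : K) (n : 𝓞 K) (c : Ideal (𝓞 K) → ℂ) : Prop where
  level : n ≠ 0
  zero : c ⊥ = 0
  one : c ⊤ = 1
  bound : ∃ C : ℝ, ∀ I, ‖c I‖ ≤ C * Ideal.absNorm I
  good : ∀ v : HeightOneSpectrum (𝓞 K), n ∉ v.asIdeal → ∀ I,
    (¬ v.asIdeal ∣ I → c (v.asIdeal * I) = c v.asIdeal * c I) ∧
    c (v.asIdeal * (v.asIdeal * I)) = c v.asIdeal * c (v.asIdeal * I) -
      Ideal.absNorm v.asIdeal * c I
  bad : ∀ v : HeightOneSpectrum (𝓞 K), n ∈ v.asIdeal → ∀ I,
    c (v.asIdeal * I) = c v.asIdeal * c I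
  invariant : ∃ κ : SpecialLinearGroup (Fin 2) (𝓞 K) → ℂ,
    ∀ γ : SpecialLinearGroup (Fin 2) (𝓞 K), n ∣ γ.1 1 0 → ∀ (z : ℂ) (t : ℝ), 0 < t →
      primitive σ δ c (actZ (σ (γ.1 0 0)) (σ (γ.1 0 1)) (σ (γ.1 1 0)) (σ (γ.1 1 1)) z t)
        (actT (σ (γ.1 1 0)) (σ (γ.1 1 1)) z t) = primitive σ δ c z t + κ γ
  fricke : ∃ w κ : ℂ, w * w = 1 ∧ ∀ (z : ℂ) (t : ℝ), 0 < t →
    primitive σ δ c (actZ 0 (-1) (σ n) 0 z t) (‖σ n‖ * actT (σ n) 0 z t) =
      -w * primitive σ δ c z t + κ
  cyclic : ∃ ω ∈ Lam σ δ n c, ∀ l ∈ Lam σ δ n c, ∃ j : ℤ, l = j * ω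

/-- The number `w` of the `u ∈ 𝓞` with `u⁴ = 1`: it is `4` for `K = ℚ(i)` and `2` otherwise. -/
noncomputable def fourth (K : Type) [Field K] : ℕ := Nat.card {u : 𝓞 K // u ^ 4 = 1}

/-- The central value is odd: `Φ(0)`, the limit of `Φ(0, t)` for `t → 0`, is not in `2 w Λ`. -/
def OddCentralValue (σ : K →+* ℂ) (δ : K) (n : 𝓞 K) (c : Ideal (𝓞 K) → ℂ) : Prop :=
  ∃ z₀ : ℂ, Tendsto (fun t => primitive σ δ c 0 t) (𝓝[>] 0) (𝓝 z₀) ∧
    ∀ y ∈ Lam σ δ n c, z₀ ≠ 2 * fourth K * y

/-- The number of the affine points of `y² = x³ + a x + b` over the residue field of `v`. -/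
noncomputable def points (a b : 𝓞 K) (v : HeightOneSpectrum (𝓞 K)) : ℕ :=
  Nat.card {x : (𝓞 K ⧸ v.asIdeal) × (𝓞 K ⧸ v.asIdeal) //
    x.2 ^ 2 = x.1 ^ 3 + (Ideal.Quotient.mk v.asIdeal a) * x.1 + (Ideal.Quotient.mk v.asIdeal b)}

/-- `f` is the newform of `E : y² = x³ + a x + b`: for `v ∤ 2(4a³ + 27b²)` (so that `E` has good reduction at `v`)
the level is prime to `v` and `c(v) = N(v) + 1 - #E(𝓞/v)`. -/
def IsNewformOf (a b n : 𝓞 K) (c : Ideal (𝓞 K) → ℂ) : Prop :=
  ∀ v : HeightOneSpectrum (𝓞 K), 2 * (4 * a ^ 3 + 27 * b ^ 2) ∉ v.asIdeal →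
    n ∉ v.asIdeal ∧ c v.asIdeal = (Ideal.absNorm v.asIdeal : ℂ) - points a b v

/-- `q` is an odd prime number which splits in `K` (the places `v` above `q` have the norm `q`, and `q ∉ v²`), and `E` has
good reduction at the places above `q`: `v ∤ 2(4a³ + 27b²)`. -/
structure IsSplitGood (a b : 𝓞 K) (q : ℕ) : Prop where
  prime : q.Prime
  odd : q ≠ 2
  degree : ∀ v : HeightOneSpectrum (𝓞 K), (q : 𝓞 K) ∈ v.asIdeal → Ideal.absNorm v.asIdeal = q
  unramified : ∀ v : HeightOneSpectrum (𝓞 K), (q : 𝓞 K) ∈ v.asIdeal → (q : 𝓞 K) ∉ v.asIdeal ^ 2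
  good : ∀ v : HeightOneSpectrum (𝓞 K), (q : 𝓞 K) ∈ v.asIdeal →
    2 * (4 * a ^ 3 + 27 * b ^ 2) ∉ v.asIdeal

/-- `q` is admissible: moreover, `x³ + a x + b` has no root modulo the places above `q` (equivalently, the numbers
`#E(𝓞/v)` are odd). -/
structure IsAdmissible (a b : 𝓞 K) (q : ℕ) : Prop extends IsSplitGood a b q where
  root : ∀ v : HeightOneSpectrum (𝓞 K), (q : 𝓞 K) ∈ v.asIdeal →
    ∀ x : 𝓞 K, x ^ 3 + a * x + b ∉ v.asIdeal

variable (K) in
/-- The field `K(q, k)`: the elements of the algebraic closure of `K` which are fixed by all the automorphisms over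
`K` whose effect on the `q`-th roots of unity is `z ↦ z ^ (m ^ (2 ^ k))`.  (It is the subfield of `K(ζ_q)` of degree
`gcd(2 ^ k, q - 1)` over `K`, if `q` splits in `K`.) -/
noncomputable def layer (q k : ℕ) : IntermediateField K (AlgebraicClosure K) where
  carrier := {x | ∀ s : AlgebraicClosure K ≃ₐ[K] AlgebraicClosure K,
    (∀ z : AlgebraicClosure K, z ^ q = 1 → ∃ m : ℕ, s z = z ^ m ^ 2 ^ k) → s x = x}
  mul_mem' := fun {x y} hx hy s hs => by rw [map_mul, hx s hs, hy s hs]
  one_mem' := fun s _ => map_one s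
  add_mem' := fun {x y} hx hy s hs => by rw [map_add, hx s hs, hy s hs]
  zero_mem' := fun s _ => map_zero s
  algebraMap_mem' := fun x s _ => s.commutes x
  inv_mem' := fun x hx s hs => by rw [map_inv₀, hx s hs]

variable (K) in
/-- The tower `T(S, k)`: the composite of the fields `K(q, k(q))`, `q ∈ S`. -/
noncomputable def tower (S : Set ℕ) (k : ℕ → ℕ) : IntermediateField K (AlgebraicClosure K) :=
  ⨆ q : S, layer K q (k q)

/-- `powerSum t q j = α ^ j + β ^ j` for `α + β = t`, `α β = q`. -/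
noncomputable def powerSum (t q : ℂ) : ℕ → ℂ
  | 0 => 2
  | 1 => t
  | j + 2 => t * powerSum t q (j + 1) - q * powerSum t q j

section lfunction

variable {F : Type} [Field F] [NumberField F] [Algebra K F]

open Classical in
/-- The Euler factor of `L(E/F, s)` at the place `u` of `F`.  Let `v` be the place of `K` below `u` and
`N(u) = N(v)^f`.  If `v ∤ 2(4a³ + 27b²)`, it is `(1 - a_u N(u)^(-s) + N(u)^(1 - 2s))⁻¹`, where
`a_u = N(u) + 1 - #E(𝓞_F/u)`.  If `v ∣ 2(4a³ + 27b²)` (these places will be unramified in `F`), it is given by the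
eigenvalue `c(v)` of the newform of `E`:
`(1 - (α^f + β^f) N(u)^(-s) + N(u)^(1 - 2s))⁻¹` with `α + β = c(v)`, `α β = N(v)` if `v` does not divide the
level `n`, and `(1 - c(v)^f N(u)^(-s))⁻¹` if it does. -/
noncomputable def eulerFactor (a b n : 𝓞 K) (c : Ideal (𝓞 K) → ℂ) (s : ℂ)
    (u : HeightOneSpectrum (𝓞 F)) : ℂ :=
  if 2 * (4 * a ^ 3 + 27 * b ^ 2) ∈ u.asIdeal.comap (algebraMap (𝓞 K) (𝓞 F)) then
    if n ∈ u.asIdeal.comap (algebraMap (𝓞 K) (𝓞 F)) then
      (1 - c (u.asIdeal.comap (algebraMap (𝓞 K) (𝓞 F))) ^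
          (Nat.log (Ideal.absNorm (u.asIdeal.comap (algebraMap (𝓞 K) (𝓞 F))))
            (Ideal.absNorm u.asIdeal)) * (Ideal.absNorm u.asIdeal : ℂ) ^ (-s))⁻¹
    else
      (1 - powerSum (c (u.asIdeal.comap (algebraMap (𝓞 K) (𝓞 F))))
          (Ideal.absNorm (u.asIdeal.comap (algebraMap (𝓞 K) (𝓞 F))))
          (Nat.log (Ideal.absNorm (u.asIdeal.comap (algebraMap (𝓞 K) (𝓞 F))))
            (Ideal.absNorm u.asIdeal)) * (Ideal.absNorm u.asIdeal : ℂ) ^ (-s) +
        (Ideal.absNorm u.asIdeal : ℂ) ^ (1 - 2 * s))⁻¹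
  else
    (1 - ((Ideal.absNorm u.asIdeal : ℂ) -
          points (algebraMap (𝓞 K) (𝓞 F) a) (algebraMap (𝓞 K) (𝓞 F) b) u) *
          (Ideal.absNorm u.asIdeal : ℂ) ^ (-s) +
      (Ideal.absNorm u.asIdeal : ℂ) ^ (1 - 2 * s))⁻¹

variable (F) in
/-- `G` is the continuation of `L(E/F, s)`: it is an entire function, and for `Re s > 2` it is the product of the Euler
factors at all the finite places of `F`. -/
def IsLFunction (a b n : 𝓞 K) (c : Ideal (𝓞 K) → ℂ) (G : ℂ → ℂ) : Prop :=
  Differentiable ℂ G ∧ ∀ s : ℂ, 2 < s.re →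
    HasProd (fun u : HeightOneSpectrum (𝓞 F) => eulerFactor a b n c s u) (G s)

end lfunction

end field

/-- The area `P = (1/2) ∫_ℂ d²x / |x³ + A x + B|` of the period parallelogram of the elliptic curve `y² = x³ + A x + B`
over `ℂ` for the differential `dx/(2y)`: if `Ω₁`, `Ω₂` is a basis of the lattice of the periods, `P = |Im (Ω₁ conj Ω₂)|`. -/
noncomputable def area (A B : ℂ) : ℝ := 1 / 2 * ∫ x : ℂ, ‖x ^ 3 + A * x + B‖⁻¹

/-- The period `Ω(E/F) = |d_F|^(1/2) ∏_w P_w` of `E : y² = x³ + a x + b` over the totally complex number field `F ⊇ K`. -/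
noncomputable def omega {K : Type} [Field K] [NumberField K] (F : Type) [Field F] [NumberField F]
    [Algebra K F] (a b : 𝓞 K) : ℝ :=
  Real.sqrt |(discr F : ℝ)| * ∏ w : InfinitePlace F,
    area (w.embedding (algebraMap K F a)) (w.embedding (algebraMap K F b))

/-- **Theorem.** Let `K` be an imaginary quadratic field of class number one, `E : y² = x³ + a x + b` an elliptic
curve over `K` with the Bianchi newform `f` of level `(n)` and eigenvalues `c`.  Then `L(E/K, s)` is continued to an entire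
function `G₀`, with `G₀(1) = (2π/|σ δ|)² Φ(0) / #𝓞ˣ`.

(1) Let `G₀(1) ≠ 0`.  Let `S` be a set of odd prime numbers which split in `K` and are prime to the bad places, and `k` a
function.  All number fields `K ⊆ F ⊆ T(S, k)` are abelian extensions of `K` of `2`-power degree and Galois over `ℚ`, and
`L(E/F, s)` is continued to an entire function `G` with `G(1) / Ω(E/F) = r (G₀(1) / Ω(E/K)) ^ [F:K]`, `r ∈ ℚ`.  So
if `G₀(1) / Ω(E/K)` is rational, `G(1) / Ω(E/F)` is rational.

(2) If, moreover, the central value of `f` is odd and all `q ∈ S` are admissible, then `G(1) ≠ 0`, and the numerator and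
the denominator of `r` are odd.

(3) Let `E(K)[2] = 0`.  (a) For every `k` the admissible primes `q` with `2 ^ k ∣ q - 1` have a positive lower density among
the primes.  (b) Let `S` be a set of admissible primes and `k` a function with `2 ^ k(q) ∣ q - 1` for the `q ∈ S`.  If for all
`m` there are infinitely many `q ∈ S` with `k(q) ≥ m`, every nontrivial finite abelian `2`-group is the Galois group over `K`
of infinitely many number fields `K ⊂ F ⊂ T(S, k)`.  (c) There are such `S` and `k`. -/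
theorem result (K : Type) [Field K] [NumberField K] [IsPrincipalIdealRing (𝓞 K)] (σ : K →+* ℂ)
    (δ : K) (hK : IsFieldData K σ δ) (a b n : 𝓞 K) (hΔ : 4 * a ^ 3 + 27 * b ^ 2 ≠ 0)
    (c : Ideal (𝓞 K) → ℂ) (hf : IsNewform σ δ n c) (hE : IsNewformOf a b n c) :
    ∃ G₀ : ℂ → ℂ, IsLFunction K a b n c G₀ ∧
    (∃ z₀ : ℂ, Tendsto (fun t => primitive σ δ c 0 t) (𝓝[>] 0) (𝓝 z₀) ∧
      G₀ 1 = (2 * Real.pi / ‖σ δ‖) ^ 2 / (Nat.card (𝓞 K)ˣ : ℂ) * z₀) ∧
    (G₀ 1 ≠ 0 → ∀ (S : Set ℕ) (k : ℕ → ℕ), (∀ q ∈ S, IsSplitGood a b q) →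
      ∀ (F : IntermediateField K (AlgebraicClosure K)) [NumberField F], F ≤ tower K S k →
        (IsGalois K F ∧ (∀ s t : F ≃ₐ[K] F, s * t = t * s) ∧ (∃ j : ℕ, Module.finrank K F = 2 ^ j) ∧
          IsGalois ℚ F) ∧
        ∃ (G : ℂ → ℂ) (r : ℚ), IsLFunction F a b n c G ∧
          G 1 / omega F a b = r * (G₀ 1 / omega K a b) ^ Module.finrank K F ∧
          (∀ r₀ : ℚ, G₀ 1 / omega K a b = r₀ → ∃ r₁ : ℚ, G 1 / omega F a b = r₁) ∧
          (OddCentralValue σ δ n c → (∀ q ∈ S, IsAdmissible a b q) →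
            G 1 ≠ 0 ∧ Odd r.num ∧ Odd r.den)) ∧
    (OddCentralValue σ δ n c → G₀ 1 ≠ 0) ∧
    ((∀ x : K, x ^ 3 + a * x + b ≠ 0) →
      (∀ k : ℕ, ∃ d : ℝ, 0 < d ∧ ∀ᶠ N : ℕ in atTop,
        d * (N / Real.log N) ≤ Nat.card {q : ℕ // q ≤ N ∧ IsAdmissible a b q ∧ 2 ^ k ∣ q - 1}) ∧
      (∀ (S : Set ℕ) (k : ℕ → ℕ), (∀ q ∈ S, IsAdmissible a b q ∧ 2 ^ k q ∣ q - 1) →
        (∀ m, {q | q ∈ S ∧ m ≤ k q}.Infinite) →
        ∀ (A : Type) [CommGroup A] [Finite A] [Nontrivial A] (N : ℕ), Nat.card A = 2 ^ N →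
          {F : IntermediateField K (AlgebraicClosure K) | F ≤ tower K S k ∧ NumberField F ∧
            Nonempty ((F ≃ₐ[K] F) ≃* A)}.Infinite) ∧
      ∃ (S : Set ℕ) (k : ℕ → ℕ), (∀ q ∈ S, IsAdmissible a b q ∧ 2 ^ k q ∣ q - 1) ∧
        ∀ m, {q | q ∈ S ∧ m ≤ k q}.Infinite) := by
  classical
  have h : K4H55.BI.IQ K σ δ := ⟨hK.quadratic, hK.imaginary, inferInstance, hK.different⟩
  have hf' : K4H55.BI.BF σ δ n c := ⟨hf.level, hf.zero, hf.one, hf.bound, hf.good, hf.bad,
    hf.invariant, hf.fricke⟩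
  obtain ⟨ω, hω', hω⟩ := hf.cyclic
  have hE' : ∀ v : HeightOneSpectrum (𝓞 K), 2 * (4 * a ^ 3 + 27 * b ^ 2) ∉ v.asIdeal →
      n ∉ v.asIdeal ∧ c v.asIdeal = (Ideal.absNorm v.asIdeal : ℂ) - K4H55.BD.pv a b v :=
    fun v hv => hE v hv
  -- the Euler factors
  have hps : ∀ (t q : ℂ) (j : ℕ), powerSum t q j = K4H55.CX.luc t q j := by
    intro t q j
    induction j using Nat.twoStepInduction with
    | zero => rfl
    | one => rfl
    | more j h1 h2 => rw [powerSum, K4H55.CX.luc, h1, h2]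
  have hef : ∀ (M : Type) [Field M] [NumberField M] [Algebra K M] (s : ℂ)
      (u : HeightOneSpectrum (𝓞 M)), eulerFactor a b n c s u = U81.BX.fct a b n c s u := by
    intro M _ _ _ s u
    unfold eulerFactor U81.BX.fct K4H55.CX.facF
    simp only [hps]
    rfl
  -- the primes
  have hspl : ∀ q : ℕ, IsSplitGood a b q → K4H55.BD.Spl h q := fun q hq =>
    ⟨hq.prime, hq.odd, hq.degree, fun v hv =>
      (U81.MQ.unr_iff h hq.prime (hq.degree v hv)).2 (hq.unramified v hv)⟩
  have hiff : ∀ q : ℕ, IsAdmissible a b q ↔ q ∈ K4H55.BD.QE h a b n := by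
    intro q
    rw [U81.MQ.qe_iff h hE']
    constructor
    · intro h1
      exact ⟨h1.prime, h1.odd, fun v hv => ⟨h1.degree v hv, h1.unramified v hv, h1.good v hv,
        h1.root v hv⟩⟩
    · rintro ⟨h1, h2, h3⟩
      exact ⟨⟨h1, h2, fun v hv => (h3 v hv).1, fun v hv => (h3 v hv).2.1,
        fun v hv => (h3 v hv).2.2.1⟩, fun v hv => (h3 v hv).2.2.2⟩
  obtain ⟨z, -, hz⟩ := K4H55.BK.exists_z0 h hf'
  obtain ⟨G₀, k1, k2, k3⟩ := K4H55.CX.chr_one h hf' hz
  have hoddz : OddCentralValue σ δ n c →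
      ∀ y ∈ Lam σ δ n c, z ≠ 2 * (Nat.card {u : 𝓞 K // u ^ 4 = 1} : ℂ) * y := by
    rintro ⟨z', hz', hzo⟩
    have e : z = z' := tendsto_nhds_unique hz hz'
    rw [e]
    exact hzo
  refine ⟨G₀, ⟨k1, fun s hs => ?_⟩, ⟨z, hz, k3⟩, fun hG0 S k hSk F _ hF => ?_, fun hodd => ?_,
    fun hroot => ⟨fun k => ?_, fun S k hSk hinf A _ _ _ N hA => ?_, ?_⟩⟩
  · refine (congrArg (fun g => HasProd g (G₀ s)) (funext fun v => ?_)).mp (k2 s hs)
    rw [hef K s v, U81.BX.fct_self hE' s v]
  · have hz0 : z ≠ 0 := by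
      rintro rfl
      rw [mul_zero] at k3
      exact hG0 k3
    obtain ⟨⟨l1, l2, l3, l4⟩, ⟨m, hm1, hm2, hm3⟩, G, r, g1, g2, g3, g4⟩ :=
      U81.RC.towers h hΔ hf' hE' hz hω hω' hz0 (S := S) (k := k)
        (fun q hq => ⟨hspl q (hSk q hq), (hSk q hq).good⟩) F hF
    have hm0 : (m : ℂ) ≠ 0 := by
      have : m ≠ 0 := by
        rintro rfl
        simp at hm1
      exact_mod_cast this
    have hom : ∀ (M : Type) [Field M] [NumberField M] [Algebra K M],
        omega M a b = U81.RC.per M a b := fun M _ _ _ => rfl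
    have hF1 : (omega F a b : ℂ) = m * (omega K a b : ℂ) ^ Module.finrank K F := by
      rw [hom F, hom K, U81.RC.per_eq h a b, U81.RC.per_eq h a b, hm3, Module.finrank_self, pow_one]
      push_cast
      ring
    have hkey : G 1 / omega F a b = ((r / m : ℚ) : ℂ) *
        (G₀ 1 / omega K a b) ^ Module.finrank K F := by
      rw [g3, hF1, ← k3]
      push_cast
      rw [div_pow, mul_div_mul_comm]
    refine ⟨⟨l1, l2, l3, l4⟩, G, r / m, ⟨g1, fun s hs => ?_⟩, hkey, fun r₀ hr₀ => ?_,
      fun hodd hadm => ?_⟩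
    · refine (congrArg (fun g => HasProd g (G s)) (funext fun v => ?_)).mp (g2 s hs)
      exact (hef F s v).symm
    · refine ⟨r / m * r₀ ^ Module.finrank K F, ?_⟩
      rw [hkey, hr₀]
      push_cast
      rfl
    · obtain ⟨o1, o2⟩ := g4 (fun q hq v hv => (hadm q hq).root v hv) (hoddz hodd)
      have hr0 : r ≠ 0 := by
        rintro rfl
        simp at o1
      refine ⟨?_, U81.RC.odd_div o1 o2 hm1 (by rw [hm2]; exact odd_one)⟩
      rw [g3, ← k3]
      exact mul_ne_zero (by exact_mod_cast hr0) (pow_ne_zero _ hG0)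
  · rw [k3]
    refine mul_ne_zero (K4H55.CX.A_ne h) ?_
    have := hoddz hodd 0 (AddSubgroup.zero_mem _)
    rwa [mul_zero] at this
  · obtain ⟨⟨d, hd, h1⟩, -⟩ := U81.RC.dens_root h hΔ hf.level hroot k
    refine ⟨d, hd, ?_⟩
    filter_upwards [h1] with M hM
    refine hM.trans ?_
    have hfin : Finite {q : ℕ // q ≤ M ∧ IsAdmissible a b q ∧ 2 ^ k ∣ q - 1} :=
      ((Set.finite_Iic M).subset fun q (hq : q ≤ M ∧ _) => hq.1).to_subtype
    exact_mod_cast Nat.card_le_card_of_injective
      (fun x : {q : ℕ // q ≤ M ∧ q ∈ K4H55.BD.QE h a b n ∧ U81.AT.Bd a b k q} =>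
        (⟨x.1, x.2.1, (hiff _).2 x.2.2.1, x.2.2.2.1⟩ :
          {q : ℕ // q ≤ M ∧ IsAdmissible a b q ∧ 2 ^ k ∣ q - 1}))
      fun x y hxy => Subtype.ext (by
        have h4 := Subtype.mk.inj hxy
        exact h4)
  · exact U81.AT.realize (fun q hq => (hSk q hq).1.prime)
      (fun q hq => U81.AT.val_of h (hspl q (hSk q hq).1.toIsSplitGood))
      (fun q hq => (hSk q hq).2) hinf hA
  · refine U81.AT.exists_levels (P := fun k q => IsAdmissible a b q ∧ 2 ^ k ∣ q - 1) fun m => ?_
    have h1 := (U81.RC.dens_root h hΔ hf.level hroot m).2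
    refine h1.mono fun q hq => ?_
    exact ⟨(hiff q).2 hq.1, hq.2.1⟩

end Pool.Agent.Results.MP_90f827_nt.RationalityInTowers
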