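import Pool.Agent.U213.TP.Quad

/-!
# MP_90f827_nt, Q1 for elliptic curves over `ℚ` and number fields given by products of two-dimensional
representations

Let `A` be an elliptic curve over `ℚ`, `F` a number field which is Galois over `ℚ` with group `G`, and `M` a
subfield of `F`. The L-function of `A` over `M` is the L-function of `A` twisted by the character `fix M`
of the permutation representation of `G` on the embeddings of `M`.

(1) If this character is a sum of linear characters, of odd irreducible two-dimensional characters and of
products `tr ρ · tr ρ'` of two odd irreducible two-dimensional characters with `det ρ det ρ' = 1`, up to a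
difference of characters of the same kind whose L-values at `1` are not zero, then `L(1, A) / Ω(A)` is a
rational number.

(2) This is so for a quartic field `M` whose Galois closure is the field of the projective representation of
an odd irreducible `ρ : G → GL₂(E)`, if the discriminant `d` of `M` is a square or the L-function of the
quadratic twist of `A` by `d` does not vanish at `1`. (By Tate's theorem on the lifting of projective
representations, which is not used here, every quartic field with Galois group `A₄` or `S₄` which is not
totally real is of this kind, for a suitable `F`.)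

(3) It is also so for a quintic field `M` whose Galois closure is the field of two different projective
representations, of odd irreducible `ρ` and `ρ'`, with `ρ ⊗ ρ'` trivial on the elements which are trivial on
`M` and its conjugates. (By Tate's theorem this is the case for every quintic field with Galois group
`A₅` which is not totally real.)
-/

set_option autoImplicit false

open NumberField Filter Topology Pool.Agent.U213.EC Pool.Agent.U213.TP

namespace Pool.Agent.Results.MP_90f827_nt.TripleProductFields

/-- Assume the published theorems `LinearTwists`, `RankinProducts` and `TripleProducts` (Deligne's conjecture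
at `s = 1` for the twists of elliptic curves over `ℚ` by the three kinds of characters in `Basic`). Let `D`
be an elliptic curve `A` over `ℚ` with a Galois extension `F` of `ℚ`, and let `M` be a subfield of `F`.
`Rational D M` is Q1 for `A` over `M`: the L-function of `A` over `M`, without the Euler factors at the
primes in `S`, has at `s = 1` the value `q Ω(A)` with a rational number `q`.

(1) `Rational D M` is true if the permutation character `fix M` plus finitely many characters `f' j` is a
sum of finitely many characters `f i`, all in `Basic`, where the L-functions of `A` twisted by the `f' j` do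
not vanish at `1` (for one embedding `τ` of the coefficient field `E`). (2) Quartic fields. (3) Quintic
fields. -/
theorem result (h₁ : LinearTwists) (h₂ : RankinProducts) (h₃ : TripleProducts)
    (F : Type) [Field F] [NumberField F] [IsGalois ℚ F] (D : Data F) (M : IntermediateField ℚ F)
    (E : Type) [Field E] [NumberField E] :
    (∀ (I J : Type) (_ : Fintype I) (_ : Fintype J) (f : I → (F ≃ₐ[ℚ] F) → E)
      (f' : J → (F ≃ₐ[ℚ] F) → E), (∀ i, Basic D (f i)) → (∀ j, Basic D (f' j)) →
      (∀ j, ∃ τ : E →+* ℂ, NonzeroAtOne D (fun σ => τ (f' j σ))) →
      (∀ σ, (fix M σ : E) + ∑ j, f' j σ = ∑ i, f i σ) → Rational D M) ∧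
    (Module.finrank ℚ M = 4 → ∀ ρ : (F ≃ₐ[ℚ] F) →* Matrix (Fin 2) (Fin 2) E, OddRep D ρ → Cuts M ρ →
      (IsSquare (discr M) ∨ NonzeroAtOne D (fun σ => (sgn M σ : ℂ))) → Rational D M) ∧
    (Module.finrank ℚ M = 5 → IsSquare (discr M) →
      ∀ ρ ρ' : (F ≃ₐ[ℚ] F) →* Matrix (Fin 2) (Fin 2) E, OddRep D ρ → OddRep D ρ' → Cuts M ρ →
      Cuts M ρ' → (∀ σ, (ρ σ).det * (ρ' σ).det = 1) → (∀ σ, Triv M σ → ρ σ * ρ' σ = 1) →
      (∀ σ, Triv M (σ ^ 5) → ¬ Triv M σ →
        (ρ σ).trace ^ 2 * (ρ' σ).det ≠ (ρ' σ).trace ^ 2 * (ρ σ).det) → Rational D M) := by
  refine ⟨fun I J _ _ f f' hf hf' hne hid => main D h₁ h₂ h₃ M f f' hf hf' hne hid, ?_, ?_⟩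
  · intro hM ρ hρ hc hs
    exact quartic M D h₁ h₂ h₃ hM ρ hρ hc hs
  · intro hM hsq ρ ρ' hρ hρ' hc hc' hd htr hne
    exact quintic M D h₁ h₂ h₃ hM hsq ρ ρ' hρ hρ' hc hc' hd htr hne

end Pool.Agent.Results.MP_90f827_nt.TripleProductFields
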